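import Pool.Agent.X316.FO.Glob
import Pool.Agent.H126R3.Slice

/-!
# Finite orbits of correspondences: counting and finiteness of the bad points
-/

set_option autoImplicit false

open Polynomial Polynomial.Bivariate

namespace Pool.Agent.X316.FO

variable {K : Type*} [Field K]

theorem atX_ne_zero (p : K[X][Y]) (hp : Irreducible p) (hy : 0 < p.natDegree) (a : K) :
    atX a p ≠ 0 := by
  intro h
  obtain ⟨U, hU⟩ := decompX a p
  rw [h, Polynomial.map_zero, zero_add] at hU
  rcases hp.isUnit_or_isUnit hU with h1 | h1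
  · rw [isUnit_C] at h1
    exact not_isUnit_X_sub_C a h1
  · obtain ⟨r, -, hr⟩ := Polynomial.isUnit_iff.1 h1
    rw [← hr, ← C_mul] at hU
    rw [hU, natDegree_C] at hy
    exact lt_irrefl _ hy

theorem card_fiber [IsAlgClosed K] {p : K[X][Y]} {A B : Finset K} (H : Half p A B) (a : K)
    (ha : a ∈ A) [DecidableEq K] :
    (B.filter fun b => p.evalEval a b = 0).card = p.natDegree := by
  have hdeg : (atX a p).natDegree = p.natDegree := by
    apply natDegree_map_of_leadingCoeff_ne_zero
    exact H.lc a ha
  have hne : atX a p ≠ 0 := by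
    intro h0
    have := congrArg (fun q => q.coeff p.natDegree) h0
    simp only [atX, coeff_map, coeff_zero] at this
    exact H.lc a ha this
  have hset : (B.filter fun b => p.evalEval a b = 0) = (atX a p).roots.toFinset := by
    ext b
    rw [Finset.mem_filter, Multiset.mem_toFinset, mem_roots hne, IsRoot, eval_atX]
    exact ⟨fun h => h.2, fun h => ⟨H.mem a ha b h, h⟩⟩
  have hnd : (atX a p).roots.Nodup := by
    rw [Multiset.nodup_iff_count_le_one]
    intro b
    rw [count_roots]
    by_contra hcon
    push Not at hcon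
    obtain ⟨h1, h2⟩ := (one_lt_rootMultiplicity_iff_isRoot hne).1 hcon
    have h3 : p.evalEval a b = 0 := by rw [← eval_atX]; exact h1
    exact (H.smooth a ha b h3).1 h2
  rw [hset, Multiset.toFinset_card_of_nodup hnd, ← hdeg]
  exact (IsAlgClosed.splits (atX a p)).natDegree_eq_card_roots.symm

theorem card_eq [IsAlgClosed K] {p : K[X][Y]} {A B : Finset K} (H : Half p A B)
    (H' : Half (swap p) B A) :
    A.card * p.natDegree = B.card * (swap p).natDegree := by
  classical
  have h1 := Finset.sum_card_bipartiteAbove_eq_sum_card_bipartiteBelow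
    (s := A) (t := B) (fun a b => p.evalEval a b = 0)
  have h2 : ∑ a ∈ A, (Finset.bipartiteAbove (fun a b => p.evalEval a b = 0) B a).card =
      A.card * p.natDegree := by
    rw [← smul_eq_mul, ← Finset.sum_const]
    exact Finset.sum_congr rfl fun a ha => card_fiber H a ha
  have h3 : ∑ b ∈ B, (Finset.bipartiteBelow (fun a b => p.evalEval a b = 0) A b).card =
      B.card * (swap p).natDegree := by
    rw [← smul_eq_mul, ← Finset.sum_const]
    refine Finset.sum_congr rfl fun b hb => ?_
    have h4 := card_fiber H' b hb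
    rw [← h4]
    congr 1
    ext a
    simp only [Finset.mem_bipartiteBelow, Finset.mem_filter, evalEval_swap]
  rw [← h2, ← h3, h1]

theorem finite_bad [CharZero K] (p : K[X][Y]) (hp : Irreducible p) (hy : 0 < p.natDegree) :
    {ab : K × K | p.evalEval ab.1 ab.2 = 0 ∧ (atX ab.1 p).derivative.eval ab.2 = 0}.Finite := by
  classical
  obtain ⟨u, w, r, hr, h⟩ := Pool.Agent.H126R3.bezout_fraction p hp.ne_zero (by
    rintro g ⟨q, hq⟩
    have h1 : p = g * (g * q) := by rw [hq]; ring
    rcases hp.isUnit_or_isUnit h1 with h2 | h2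
    · exact natDegree_eq_zero_of_isUnit h2
    · exact natDegree_eq_zero_of_isUnit (isUnit_of_mul_isUnit_left h2))
  have hfin : (⋃ a ∈ (r.roots.toFinset : Set K), (fun b => (a, b)) ''
      ((atX a p).roots.toFinset : Set K)).Finite := by
    refine Set.Finite.biUnion (Finset.finite_toSet _) fun a _ => ?_
    exact (Finset.finite_toSet _).image _
  refine hfin.subset ?_
  rintro ⟨a, b⟩ ⟨h1, h2⟩
  simp only at h1 h2
  have h3 := congrArg (fun q => evalEval a b q) h
  simp only [evalEval_add, evalEval_mul, evalEval_C] at h3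
  have h4 : evalEval a b (derivative p) = 0 := by
    rw [← eval_atX, atX, ← derivative_map]
    exact h2
  rw [h1, h4, mul_zero, mul_zero, add_zero] at h3
  refine Set.mem_iUnion₂.2 ⟨a, ?_, b, ?_, rfl⟩
  · rw [Finset.mem_coe, Multiset.mem_toFinset, mem_roots hr]
    exact h3.symm
  · rw [Finset.mem_coe, Multiset.mem_toFinset, mem_roots (atX_ne_zero p hp hy a), IsRoot, eval_atX]
    exact h1

theorem irreducible_swap (p : K[X][Y]) (hp : Irreducible p) : Irreducible (swap p) :=
  (MulEquiv.irreducible_iff (swap (R := K))).2 hp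

theorem finite_bad' [CharZero K] (p : K[X][Y]) (hp : Irreducible p)
    (hx : 0 < (swap p).natDegree) :
    {ab : K × K | p.evalEval ab.1 ab.2 = 0 ∧ (atY ab.2 p).derivative.eval ab.1 = 0}.Finite := by
  have h := (finite_bad (swap p) (irreducible_swap p hp) hx).image Prod.swap
  refine h.subset ?_
  rintro ⟨a, b⟩ ⟨h1, h2⟩
  refine ⟨(b, a), ⟨?_, ?_⟩, rfl⟩
  · rw [evalEval_swap]; exact h1
  · rw [atX_swap]; exact h2

end Pool.Agent.X316.FO
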