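import Pool.Agent.X316.FO.Place

/-!
# Finite orbits of correspondences: the global argument
-/

set_option autoImplicit false

open Polynomial Polynomial.Bivariate

namespace Pool.Agent.X316.FO

universe u

variable {K : Type*} [Field K]

/-- the conditions above the first coordinate -/
structure Half (p : K[X][Y]) (A B : Finset K) : Prop where
  lc : ∀ a ∈ A, p.leadingCoeff.eval a ≠ 0
  mem : ∀ a ∈ A, ∀ b, p.evalEval a b = 0 → b ∈ B
  smooth : ∀ a ∈ A, ∀ b, p.evalEval a b = 0 →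
    (atX a p).derivative.eval b ≠ 0 ∧ (atY b p).derivative.eval a ≠ 0

/-- the polynomial with simple roots in `A` -/
noncomputable def PA (A : Finset K) : K[X] := ∏ a ∈ A, (X - C a)

theorem PA_monic (A : Finset K) : (PA A).Monic := monic_prod_of_monic _ _ fun a _ => monic_X_sub_C a

theorem PA_ne (A : Finset K) : PA A ≠ 0 := (PA_monic A).ne_zero

section val

variable {L : Type*} [Field L] [Algebra K L] {Γ : Type*} [LinearOrderedCommGroupWithZero Γ]
  (v : Valuation L Γ) (hv : ∀ c : K, c ≠ 0 → v (algebraMap K L c) = 1)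

omit hv in
theorem v_PA (x : L) (A : Finset K) : v (aeval x (PA A)) = ∏ a ∈ A, v (x - algebraMap K L a) := by
  rw [PA, map_prod, map_prod]
  refine Finset.prod_congr rfl fun a _ => ?_
  rw [map_sub, aeval_X, aeval_C]

include hv

theorem v_PA_mem {x : L} {a : K} (h : v (x - algebraMap K L a) < 1) (A : Finset K) (ha : a ∈ A) :
    v (aeval x (PA A)) = v (x - algebraMap K L a) := by
  rw [v_PA]
  refine Finset.prod_eq_single_of_mem a ha fun b _ hb => v_sub_other v hv h hb

theorem v_PA_not_mem {x : L} {a : K} (h : v (x - algebraMap K L a) < 1) (A : Finset K)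
    (ha : a ∉ A) : v (aeval x (PA A)) = 1 := by
  rw [v_PA]
  refine Finset.prod_eq_one fun b hb => v_sub_other v hv h ?_
  rintro rfl
  exact ha hb

theorem v_PA_far {x : L} (A : Finset K) (h : ∀ a ∈ A, ¬ v (x - algebraMap K L a) < 1) :
    v (aeval x (PA A)) = (max 1 (v x)) ^ A.card := by
  rw [v_PA, ← Finset.prod_const]
  refine Finset.prod_congr rfl fun a ha => ?_
  have h1 := h a ha
  push Not at h1
  rcases le_or_gt (v x) 1 with h2 | h2
  · rw [max_eq_left h2]
    exact le_antisymm ((v.map_sub _ _).trans (max_le h2 (v_le v hv a))) h1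
  · rw [max_eq_right h2.le]
    exact v.map_sub_eq_of_lt_left (lt_of_le_of_lt (v_le v hv a) h2)

theorem near [IsAlgClosed K] {p : K[X][Y]} {A1 A2 B1 B2 : Finset K} (H1 : Half p A1 B1)
    (H2 : Half p A2 B2) (hA : Disjoint A1 A2) (hB : Disjoint B1 B2) {x y : L}
    (hp : aevalAeval x y p = 0)
    (h : ∃ a, (a ∈ A1 ∨ a ∈ A2) ∧ v (x - algebraMap K L a) < 1) :
    v (aeval x (PA A1)) = v (aeval y (PA B1)) ∧ v (aeval x (PA A2)) = v (aeval y (PA B2)) := by
  obtain ⟨a, ha | ha, hva⟩ := h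
  · obtain ⟨b, hb, hvb⟩ := place_eq v hv p hp a hva (H1.lc a ha) (H1.smooth a ha)
    have hbB := H1.mem a ha b hb
    have hvb' : v (y - algebraMap K L b) < 1 := by rw [hvb]; exact hva
    rw [v_PA_mem v hv hva A1 ha, v_PA_mem v hv hvb' B1 hbB,
      v_PA_not_mem v hv hva A2 (Finset.disjoint_left.1 hA ha),
      v_PA_not_mem v hv hvb' B2 (Finset.disjoint_left.1 hB hbB)]
    exact ⟨hvb.symm, rfl⟩
  · obtain ⟨b, hb, hvb⟩ := place_eq v hv p hp a hva (H2.lc a ha) (H2.smooth a ha)
    have hbB := H2.mem a ha b hb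
    have hvb' : v (y - algebraMap K L b) < 1 := by rw [hvb]; exact hva
    rw [v_PA_mem v hv hva A2 ha, v_PA_mem v hv hvb' B2 hbB,
      v_PA_not_mem v hv hva A1 (Finset.disjoint_right.1 hA ha),
      v_PA_not_mem v hv hvb' B1 (Finset.disjoint_right.1 hB hbB)]
    exact ⟨rfl, hvb.symm⟩

theorem val_eq [IsAlgClosed K] {p : K[X][Y]} {A1 A2 B1 B2 : Finset K} (H1 : Half p A1 B1)
    (H1' : Half (swap p) B1 A1) (H2 : Half p A2 B2) (H2' : Half (swap p) B2 A2)
    (hA : Disjoint A1 A2) (hB : Disjoint B1 B2) (hcard : B1.card * A2.card = B2.card * A1.card)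
    {x y : L} (hp : aevalAeval x y p = 0) :
    v (aeval x (PA A1) ^ A2.card * aeval y (PA B2) ^ A1.card) =
      v (aeval y (PA B1) ^ A2.card * aeval x (PA A2) ^ A1.card) := by
  rw [map_mul, map_mul, map_pow, map_pow, map_pow, map_pow]
  by_cases c1 : ∃ a, (a ∈ A1 ∨ a ∈ A2) ∧ v (x - algebraMap K L a) < 1
  · obtain ⟨e1, e2⟩ := near v hv H1 H2 hA hB hp c1
    rw [e1, e2]
  by_cases c2 : ∃ b, (b ∈ B1 ∨ b ∈ B2) ∧ v (y - algebraMap K L b) < 1
  · obtain ⟨e1, e2⟩ := near v hv (x := y) (y := x) H1' H2' hB hA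
      (by rw [aevalAeval_swap]; exact hp) c2
    rw [e1, e2]
  · push Not at c1 c2
    rw [v_PA_far v hv A1 (fun a ha => not_lt.2 (c1 a (Or.inl ha))),
      v_PA_far v hv A2 (fun a ha => not_lt.2 (c1 a (Or.inr ha))),
      v_PA_far v hv B1 (fun a ha => not_lt.2 (c2 a (Or.inl ha))),
      v_PA_far v hv B2 (fun a ha => not_lt.2 (c2 a (Or.inr ha))),
      ← pow_mul, ← pow_mul, ← pow_mul, ← pow_mul, hcard, mul_comm A1.card A2.card, mul_comm]

end val

/-- a field element lying in all valuation rings over `K` is a constant -/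
theorem const_of_forall_valuation [IsAlgClosed K] {L : Type*} [Field L] [Algebra K L] (u : L)
    (h : ∀ V : ValuationSubring L, (∀ c : K, algebraMap K L c ∈ V) → u ∈ V) :
    ∃ c : K, u = algebraMap K L c := by
  by_cases hu : u ∈ (integralClosure K L).toSubring
  · have hu' : IsIntegral K u := hu
    have h1 := minpoly.irreducible hu'
    have h2 := IsAlgClosed.degree_eq_one_of_irreducible K h1
    obtain ⟨c, hc⟩ := minpoly.mem_range_of_degree_eq_one K u h2
    exact ⟨c, hc.symm⟩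
  · exfalso
    obtain ⟨V, hV, huV⟩ := Subring.exists_le_valuationSubring_of_isIntegrallyClosedIn hu
    exact huV (h V fun c => hV (show IsIntegral K (algebraMap K L c) from isIntegral_algebraMap))

theorem exists_field {K : Type u} [Field K] (p : K[X][Y]) (hp : Irreducible p) :
    ∃ (L : Type u) (_ : Field L) (_ : Algebra K L) (φ : K[X][Y] →ₐ[K] L),
      ∀ r, φ r = 0 ↔ p ∣ r := by
  have hpp : Prime p := hp.prime
  have hI : (Ideal.span {p}).IsPrime := (Ideal.span_singleton_prime hp.ne_zero).2 hpp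
  refine ⟨FractionRing (K[X][Y] ⧸ Ideal.span {p}), inferInstance, inferInstance,
    (IsScalarTower.toAlgHom K (K[X][Y] ⧸ Ideal.span {p})
      (FractionRing (K[X][Y] ⧸ Ideal.span {p}))).comp (Ideal.Quotient.mkₐ K (Ideal.span {p})), ?_⟩
  intro r
  rw [AlgHom.comp_apply, IsScalarTower.coe_toAlgHom',
    map_eq_zero_iff _ (IsFractionRing.injective (K[X][Y] ⧸ Ideal.span {p}) _),
    Ideal.Quotient.mkₐ_eq_mk, Ideal.Quotient.eq_zero_iff_mem, Ideal.mem_span_singleton]

theorem valuation_const {L : Type*} [Field L] [Algebra K L] (V : ValuationSubring L)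
    (hV : ∀ c : K, algebraMap K L c ∈ V) (c : K) (hc : c ≠ 0) :
    V.valuation (algebraMap K L c) = 1 := by
  have h0 : V.valuation (algebraMap K L c) ≤ 1 := (V.valuation_le_one_iff _).2 (hV c)
  have h1 : V.valuation (algebraMap K L c⁻¹) ≤ 1 := (V.valuation_le_one_iff _).2 (hV c⁻¹)
  have h2 : V.valuation (algebraMap K L c) * V.valuation (algebraMap K L c⁻¹) = 1 := by
    rw [← map_mul, ← map_mul, mul_inv_cancel₀ hc, map_one, map_one]
  rcases h0.lt_or_eq with h3 | h3
  · exfalso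
    have h4 := mul_lt_one_of_nonneg_of_lt_one_left zero_le h3 h1
    rw [h2] at h4
    exact lt_irrefl _ h4
  · exact h3

theorem exists_const {K : Type u} [Field K] [IsAlgClosed K] (p : K[X][Y]) (hp : Irreducible p)
    (hx : 0 < (swap p).natDegree) (hy : 0 < p.natDegree)
    {A1 A2 B1 B2 : Finset K} (H1 : Half p A1 B1)
    (H1' : Half (swap p) B1 A1) (H2 : Half p A2 B2) (H2' : Half (swap p) B2 A2)
    (hA : Disjoint A1 A2) (hB : Disjoint B1 B2) (hcard : B1.card * A2.card = B2.card * A1.card) :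
    ∃ c : K, c ≠ 0 ∧ p ∣ C (PA A1 ^ A2.card) * (PA B2 ^ A1.card).map C -
      C (C c) * ((PA B1 ^ A2.card).map C * C (PA A2 ^ A1.card)) := by
  obtain ⟨L, _, _, φ, hφ0⟩ := exists_field p hp
  obtain ⟨x, hxdef⟩ : ∃ x : L, x = φ (C X) := ⟨_, rfl⟩
  obtain ⟨y, hydef⟩ : ∃ y : L, y = φ X := ⟨_, rfl⟩
  have hφ : ∀ r, φ r = aevalAeval x y r := by
    intro r
    have h1 := (aevalAevalEquiv K L).apply_symm_apply φ
    rw [hxdef, hydef]
    exact (congrArg (fun g : K[X][Y] →ₐ[K] L => g r) h1).symm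
  have hpz : aevalAeval x y p = 0 := by rw [← hφ, hφ0]
  -- one variable polynomials do not vanish
  have hCx : ∀ f : K[X], f ≠ 0 → aeval x f ≠ 0 := by
    intro f hf h0
    have h1 : φ (C f) = 0 := by rw [hφ, aevalAeval_C]; exact h0
    rw [hφ0] at h1
    have h2 := natDegree_le_of_dvd h1 (by simpa using hf)
    rw [natDegree_C] at h2
    omega
  have hCy : ∀ f : K[X], f ≠ 0 → aeval y f ≠ 0 := by
    intro f hf h0
    have h1 : φ (f.map C) = 0 := by
      rw [hφ, ← swap_C, aevalAeval_swap, aevalAeval_C]; exact h0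
    rw [hφ0] at h1
    have h3 : swap p ∣ C f := by
      have h5 := map_dvd (swap (R := K)) h1
      rwa [swap_map_C] at h5
    have h2 := natDegree_le_of_dvd h3 (by simpa using hf)
    rw [natDegree_C] at h2
    omega
  obtain ⟨N, hN⟩ : ∃ N : L, N = aeval x (PA A1) ^ A2.card * aeval y (PA B2) ^ A1.card := ⟨_, rfl⟩
  obtain ⟨D, hD⟩ : ∃ D : L, D = aeval y (PA B1) ^ A2.card * aeval x (PA A2) ^ A1.card := ⟨_, rfl⟩
  have hN0 : N ≠ 0 := by
    rw [hN]
    exact mul_ne_zero (pow_ne_zero _ (hCx _ (PA_ne _))) (pow_ne_zero _ (hCy _ (PA_ne _)))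
  have hD0 : D ≠ 0 := by
    rw [hD]
    exact mul_ne_zero (pow_ne_zero _ (hCy _ (PA_ne _))) (pow_ne_zero _ (hCx _ (PA_ne _)))
  obtain ⟨c, hc⟩ := const_of_forall_valuation (K := K) (N / D) (by
    intro V hV
    have hv := valuation_const V hV
    have h3 : V.valuation N = V.valuation D := by
      rw [hN, hD]
      exact val_eq V.valuation hv H1 H1' H2 H2' hA hB hcard hpz
    have h4 : V.valuation (N / D) = 1 := by
      rw [map_div₀, h3]
      exact div_self ((Valuation.ne_zero_iff _).2 hD0)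
    exact (V.valuation_le_one_iff _).1 h4.le)
  refine ⟨c, ?_, ?_⟩
  · rintro rfl
    rw [map_zero] at hc
    exact div_ne_zero hN0 hD0 hc
  · rw [← hφ0, map_sub, map_mul, map_mul, map_mul, hφ, hφ, hφ, hφ, hφ, aevalAeval_C,
      aevalAeval_C, aevalAeval_C, ← swap_C, ← swap_C, aevalAeval_swap, aevalAeval_swap,
      aevalAeval_C, aevalAeval_C, map_pow, map_pow, map_pow, map_pow, aeval_C, ← hN, ← hD, ← hc,
      div_mul_cancel₀ _ hD0, sub_self]

end Pool.Agent.X316.FO
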