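import Mathlib

/-!
# Finite orbits of correspondences: the argument at a place of the function field
-/

set_option autoImplicit false

open Polynomial Polynomial.Bivariate

namespace Pool.Agent.X316.FO

variable {K : Type*} [Field K]

/-- the polynomial `p(a, y)` -/
noncomputable abbrev atX (a : K) (p : K[X][Y]) : K[X] := p.map (evalRingHom a)

/-- the polynomial `p(x, b)` -/
noncomputable abbrev atY (b : K) (p : K[X][Y]) : K[X] := p.eval (C b)

theorem eval_atX (a b : K) (p : K[X][Y]) : (atX a p).eval b = p.evalEval a b := by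
  rw [atX, map_evalRingHom_eval]

theorem eval_atY (a b : K) (p : K[X][Y]) : (atY b p).eval a = p.evalEval a b := rfl

theorem map_C_atX (a : K) (f : K[X]) : atX a (f.map C) = f := by
  rw [atX, Polynomial.map_map]
  have : (evalRingHom a).comp C = RingHom.id K := by ext; simp
  rw [this, Polynomial.map_id]

theorem atX_swap (b : K) (p : K[X][Y]) : atX b (swap p) = atY b p := by
  induction p using Polynomial.induction_on' with
  | add p q hp hq =>
    rw [map_add, atX, Polynomial.map_add, atY, eval_add]
    exact congrArg₂ _ hp hq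
  | monomial n f =>
    rw [swap_monomial, atX, Polynomial.map_mul, Polynomial.map_C, atY, eval_monomial]
    have := map_C_atX b f
    rw [atX] at this
    rw [this]
    simp

theorem atY_swap (a : K) (p : K[X][Y]) : atY a (swap p) = atX a p := by
  rw [← atX_swap, swap_swap_apply]

theorem evalEval_swap (a b : K) (p : K[X][Y]) : (swap p).evalEval b a = p.evalEval a b := by
  rw [← eval_atX, atX_swap, eval_atY]

theorem decomp1 (b : K) (s : K[X]) : ∃ t : K[X], s = C (s.eval b) + (X - C b) * t := by
  obtain ⟨t, ht⟩ := X_sub_C_dvd_sub_C_eval (p := s) (a := b)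
  exact ⟨t, by rw [← ht]; ring⟩

theorem decomp1_eval (b : K) (s t : K[X]) (c : K) (h : s = C c + (X - C b) * t) :
    t.eval b = s.derivative.eval b := by
  have h2 := congrArg (fun q => (derivative q).eval b) h
  simp only [derivative_add, derivative_C, derivative_mul, derivative_sub, derivative_X, eval_add,
    eval_zero, eval_mul, eval_sub, eval_X, eval_C, eval_one] at h2
  rw [h2]
  ring

theorem decompX (a : K) (r : K[X][Y]) : ∃ U : K[X][Y],
    r = (atX a r).map C + C (X - C a) * U := by
  have h : C (X - C a) ∣ r - (atX a r).map C := by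
    rw [C_dvd_iff_dvd_coeff]
    intro i
    rw [coeff_sub, coeff_map, coeff_map]
    exact X_sub_C_dvd_sub_C_eval
  obtain ⟨U, hU⟩ := h
  exact ⟨U, by rw [← hU]; ring⟩

theorem decompX_eval (a b : K) (r U : K[X][Y]) (h : r = (atX a r).map C + C (X - C a) * U) :
    U.evalEval a b = (atY b r).derivative.eval a := by
  have h1 := congrArg (fun q => eval (C b) q) h
  simp only [eval_add, eval_mul, eval_C] at h1
  have h2 : eval (C b) ((atX a r).map C) = C ((atX a r).eval b) := by
    rw [eval_map, eval₂_at_apply]
  rw [h2] at h1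
  exact decomp1_eval a _ _ _ h1

section val

variable {L : Type*} [Field L] [Algebra K L] {Γ : Type*} [LinearOrderedCommGroupWithZero Γ]
  (v : Valuation L Γ) (hv : ∀ c : K, c ≠ 0 → v (algebraMap K L c) = 1)

include hv

theorem v_le (c : K) : v (algebraMap K L c) ≤ 1 := by
  by_cases h : c = 0
  · rw [h, map_zero, map_zero]; exact zero_le_one
  · exact (hv c h).le

theorem aeval_le {x : L} (hx : v x ≤ 1) (r : K[X]) : v (aeval x r) ≤ 1 := by
  rw [aeval_eq_sum_range]
  refine v.map_sum_le fun i _ => ?_
  rw [Algebra.smul_def, map_mul, map_pow]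
  exact mul_le_one' (v_le v hv _) (pow_le_one' hx _)

theorem aevalAeval_monomial (x y : L) (n : ℕ) (f : K[X]) :
    aevalAeval x y (monomial n f : K[X][Y]) = aeval x f * y ^ n := by
  rw [← C_mul_X_pow_eq_monomial, map_mul, aevalAeval_C, map_pow, aevalAeval_Y]

theorem aevalAeval_le {x y : L} (hx : v x ≤ 1) (hy : v y ≤ 1) (r : K[X][Y]) :
    v (aevalAeval x y r) ≤ 1 := by
  induction r using Polynomial.induction_on' with
  | add p q hp hq =>
    rw [map_add]
    exact (v.map_add _ _).trans (max_le hp hq)
  | monomial n f =>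
    rw [aevalAeval_monomial v hv, map_mul, map_pow]
    exact mul_le_one' (aeval_le v hv hx _) (pow_le_one' hy _)

theorem v_x_le {x : L} {a : K} (h : v (x - algebraMap K L a) < 1) : v x ≤ 1 := by
  have : x = (x - algebraMap K L a) + algebraMap K L a := by ring
  rw [this]
  exact (v.map_add _ _).trans (max_le h.le (v_le v hv a))

theorem v_sub_other {x : L} {a a' : K} (h : v (x - algebraMap K L a) < 1) (hne : a' ≠ a) :
    v (x - algebraMap K L a') = 1 := by
  have h1 : x - algebraMap K L a' = (x - algebraMap K L a) + algebraMap K L (a - a') := by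
    rw [map_sub]; ring
  have h2 : v (algebraMap K L (a - a')) = 1 := hv _ (sub_ne_zero.2 hne.symm)
  rw [h1, v.map_add_eq_of_lt_right (by rw [h2]; exact h), h2]

theorem aeval_eq_one {x : L} {a : K} (h : v (x - algebraMap K L a) < 1) (r : K[X])
    (hr : r.eval a ≠ 0) : v (aeval x r) = 1 := by
  obtain ⟨t, ht⟩ := decomp1 a r
  have h1 : aeval x r = (x - algebraMap K L a) * aeval x t + algebraMap K L (r.eval a) := by
    conv_lhs => rw [ht]
    simp [aeval_C]
    ring
  have h2 : v ((x - algebraMap K L a) * aeval x t) < 1 := by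
    rw [map_mul]
    exact mul_lt_one_of_nonneg_of_lt_one_left zero_le h (aeval_le v hv (v_x_le v hv h) t)
  rw [h1, v.map_add_eq_of_lt_right (by rw [hv _ hr]; exact h2), hv _ hr]

theorem aevalAeval_map_C (x y : L) (f : K[X]) :
    aevalAeval x y (f.map C : K[X][Y]) = aeval y f := by
  have := aevalAeval_swap (R := K) x y (C f)
  rw [swap_C, aevalAeval_C] at this
  exact this

theorem aevalAeval_eq_one {x y : L} {a b : K} (h : v (x - algebraMap K L a) < 1)
    (h' : v (y - algebraMap K L b) < 1) (r : K[X][Y])
    (hr : r.evalEval a b ≠ 0) : v (aevalAeval x y r) = 1 := by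
  obtain ⟨U, hU⟩ := decompX a r
  have h1 : aevalAeval x y r = (x - algebraMap K L a) * aevalAeval x y U + aeval y (atX a r) := by
    conv_lhs => rw [hU]
    rw [map_add, map_mul, aevalAeval_C, aevalAeval_map_C v hv, map_sub, aeval_X, aeval_C]
    ring
  have h2 : v ((x - algebraMap K L a) * aevalAeval x y U) < 1 := by
    rw [map_mul]
    exact mul_lt_one_of_nonneg_of_lt_one_left zero_le h
      (aevalAeval_le v hv (v_x_le v hv h) (v_x_le v hv h') U)
  have h3 : v (aeval y (atX a r)) = 1 := aeval_eq_one v hv h' _ (by rw [eval_atX]; exact hr)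
  rw [h1, v.map_add_eq_of_lt_right (by rw [h3]; exact h2), h3]

/-- the value of a polynomial with unit leading coefficient at a pole -/
theorem v_y_le {x y : L} (hx : v x ≤ 1) (p : K[X][Y]) (hp : aevalAeval x y p = 0)
    (hlc : v (aeval x p.leadingCoeff) = 1) : v y ≤ 1 := by
  by_contra hy
  push Not at hy
  have h1 : ∀ q : K[X][Y], aevalAeval x y q = ∑ i ∈ Finset.range (q.natDegree + 1),
      aeval x (q.coeff i) * y ^ i := by
    intro q
    conv_lhs => rw [q.as_sum_range]
    rw [map_sum]
    exact Finset.sum_congr rfl fun i _ => aevalAeval_monomial v hv x y i _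
  have h2 := h1 p
  rw [hp, Finset.sum_range_succ] at h2
  have hy0 : v y ≠ 0 := fun h => by rw [h] at hy; exact absurd hy (not_lt.2 zero_le_one)
  rcases Nat.eq_zero_or_pos p.natDegree with h0 | h0
  · rw [h0, Finset.sum_range_zero, zero_add, pow_zero, mul_one] at h2
    have : p.coeff 0 = p.leadingCoeff := by rw [leadingCoeff, h0]
    rw [← this, ← h2, map_zero] at hlc
    exact zero_ne_one hlc
  have h3 : v (∑ i ∈ Finset.range p.natDegree, aeval x (p.coeff i) * y ^ i) <
      v y ^ p.natDegree := by
    refine v.map_sum_lt (pow_ne_zero _ hy0) fun i hi => ?_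
    rw [map_mul, map_pow]
    calc v (aeval x (p.coeff i)) * v y ^ i ≤ 1 * v y ^ i :=
          mul_le_mul_left (aeval_le v hv hx _) _
      _ = v y ^ i := one_mul _
      _ < v y ^ p.natDegree := pow_lt_pow_right₀ hy (Finset.mem_range.1 hi)
  have h4 : v (∑ i ∈ Finset.range p.natDegree, aeval x (p.coeff i) * y ^ i) =
      v y ^ p.natDegree := by
    have : ∑ i ∈ Finset.range p.natDegree, aeval x (p.coeff i) * y ^ i =
        - (aeval x p.leadingCoeff * y ^ p.natDegree) := by
      rw [leadingCoeff]
      linear_combination -h2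
    rw [this, v.map_neg, map_mul, hlc, one_mul, map_pow]
  exact absurd h3 (not_lt.2 h4.ge)

theorem exists_root [IsAlgClosed K] {y : L} (hy : v y ≤ 1) (f : K[X]) (hf : f ≠ 0)
    (h : v (aeval y f) < 1) : ∃ b : K, f.eval b = 0 ∧ v (y - algebraMap K L b) < 1 := by
  by_contra hcon
  push Not at hcon
  have hs := (IsAlgClosed.splits f).eq_prod_roots
  have h1 : v (aeval y f) = 1 := by
    rw [hs, map_mul, aeval_C, map_mul, hv _ (leadingCoeff_ne_zero.2 hf), one_mul,
      map_multiset_prod, map_multiset_prod]
    refine Multiset.prod_eq_one ?_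
    intro z hz
    rw [Multiset.mem_map] at hz
    obtain ⟨w, hw, rfl⟩ := hz
    rw [Multiset.mem_map] at hw
    obtain ⟨u, hu, rfl⟩ := hw
    rw [Multiset.mem_map] at hu
    obtain ⟨b, hb, rfl⟩ := hu
    have hb' : f.eval b = 0 := (mem_roots hf).1 hb
    rw [map_sub, aeval_X, aeval_C]
    refine le_antisymm ?_ (hcon b hb')
    exact (v.map_sub _ _).trans (max_le hy (v_le v hv b))
  exact absurd h (not_lt.2 h1.ge)

/-- **The key local statement.** -/
theorem place_eq [IsAlgClosed K] {x y : L} (p : K[X][Y]) (hp : aevalAeval x y p = 0) (a : K)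
    (hax : v (x - algebraMap K L a) < 1) (hlc : (p.leadingCoeff).eval a ≠ 0)
    (hsm : ∀ b, p.evalEval a b = 0 →
      (atX a p).derivative.eval b ≠ 0 ∧ (atY b p).derivative.eval a ≠ 0) :
    ∃ b, p.evalEval a b = 0 ∧ v (y - algebraMap K L b) = v (x - algebraMap K L a) := by
  have hx := v_x_le v hv hax
  have hy : v y ≤ 1 := v_y_le v hv hx p hp (aeval_eq_one v hv hax _ hlc)
  obtain ⟨U, hU⟩ := decompX a p
  have h1 : (x - algebraMap K L a) * aevalAeval x y U + aeval y (atX a p) = 0 := by
    rw [← hp]
    conv_rhs => rw [hU]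
    rw [map_add, map_mul, aevalAeval_C, aevalAeval_map_C v hv, map_sub, aeval_X, aeval_C]
    ring
  have h2 : v (aeval y (atX a p)) < 1 := by
    have : aeval y (atX a p) = - ((x - algebraMap K L a) * aevalAeval x y U) := by
      linear_combination h1
    rw [this, v.map_neg, map_mul]
    exact mul_lt_one_of_nonneg_of_lt_one_left zero_le hax (aevalAeval_le v hv hx hy U)
  have hne : atX a p ≠ 0 := by
    intro h0
    have := congrArg (fun q => q.coeff p.natDegree) h0
    simp only [atX, coeff_map, coeff_zero] at this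
    exact hlc this
  obtain ⟨b, hb, hby⟩ := exists_root v hv hy _ hne h2
  have hpb : p.evalEval a b = 0 := by rw [← eval_atX]; exact hb
  obtain ⟨hs1, hs2⟩ := hsm b hpb
  refine ⟨b, hpb, ?_⟩
  obtain ⟨t, ht⟩ := decomp1 b (atX a p)
  rw [hb, C_0, zero_add] at ht
  have ht' : t.eval b ≠ 0 := by
    rw [decomp1_eval b (atX a p) t 0 (by rw [C_0, zero_add]; exact ht)]
    exact hs1
  have hU' : U.evalEval a b ≠ 0 := by
    rw [decompX_eval a b p U hU]
    exact hs2
  have h3 : (y - algebraMap K L b) * aeval y t = - ((x - algebraMap K L a) * aevalAeval x y U) := by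
    have h4 : aeval y (atX a p) = (y - algebraMap K L b) * aeval y t := by
      conv_lhs => rw [ht]
      rw [map_mul, map_sub, aeval_X, aeval_C]
    rw [← h4]
    linear_combination h1
  have h5 := congrArg v h3
  rw [v.map_neg, map_mul, map_mul, aeval_eq_one v hv hby _ ht',
    aevalAeval_eq_one v hv hax hby _ hU', mul_one, mul_one] at h5
  exact h5

end val

end Pool.Agent.X316.FO
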